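import Pool.Agent.H6.KW.Bias2

/-!
# MP_9cfc0a_nt: the bound for a fixed modulus holds somewhere in every window, up to the real zeros

For a fixed modulus `q` Montgomery's conjecture asks for `|ψ(z; q, a) - z / φ(q)| ≤ C z ^ (1 / 2 + ε)`
for all `z` (this is the generalized Riemann hypothesis modulo `q`). We prove, without any hypothesis
and for EVERY modulus `q`, that every window `[x, A x]` contains an interval `[y, y + √y]` on which this
bound holds after the terms of the (finitely many) REAL zeros in `(1 / 2, 1)` are removed, also for all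
linear combinations of the classes. And if there are real zeros then the largest one with a nonzero
coefficient in the class `a` governs `ψ(z; q, a) - z / φ(q)` on such an interval in every window: there
the conjectured bound fails, with a known sign. Nothing is assumed on the nonreal zeros, which may have
larger real parts.

The proof divides the product of the `L(s, χ)` by the factors of the real zeros, and applies the
library's monotone cutoffs (`H353R5`) whose transform kills all nonreal zeros with real part `≥ σ > 1/2`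
to the coefficients `Λ(n) 1_{n ≡ a} - (1 - ∑ κ_β(a) n ^ (β - 1)) / φ(q)`.
-/

set_option autoImplicit false

namespace Pool.Agent.Results.MP_9cfc0a_nt.RealZeroTerms

open Finset H353 H353.D Pool.Agent.H6.KW Topology

noncomputable section

/-- `ψ(x; q, a)`: the sum of `Λ(n)` over the `n ≤ x` with `n ≡ a` modulo `q`. -/
def psi (x : ℝ) (q a : ℕ) : ℝ :=
  ∑ n ∈ (Icc 1 ⌊x⌋₊).filter (fun n => n ≡ a [MOD q]), ArithmeticFunction.vonMangoldt n

/-- The reduced residue classes modulo `q`. -/
def classes (q : ℕ) : Finset ℕ := (range q).filter (fun a => a.Coprime q)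

/-- `κ_β(a)`: the sum over the characters `χ` modulo `q` of `χ(a)⁻¹` times the multiplicity of `β` as a
zero of `L(s, χ)` (which is `0` if `L(β, χ) ≠ 0`). -/
def kappa (q : ℕ) [NeZero q] (a : ℕ) (β : ℝ) : ℂ :=
  ∑ χ : DirichletCharacter ℂ q, χ (a : ZMod q)⁻¹ * (analyticOrderNatAt χ.LFunction (β : ℂ) : ℂ)

theorem mu_Fc {q : ℕ} [NeZero q] (χ : DirichletCharacter ℂ q) {β : ℂ} (h1 : β ≠ 1) :
    D.mu (Fc χ) β = analyticOrderNatAt χ.LFunction β := by
  by_cases hχ : χ = 1
  · subst hχ
    have ha : AnalyticAt ℂ (DirichletCharacter.LFunction (1 : DirichletCharacter ℂ q)) β := by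
      have ho : IsOpen {s : ℂ | s ≠ 1} := isOpen_ne
      have : DifferentiableOn ℂ (DirichletCharacter.LFunction (1 : DirichletCharacter ℂ q))
          {s : ℂ | s ≠ 1} := fun s hs =>
        (DirichletCharacter.differentiableAt_LFunction _ _ (Or.inl hs)).differentiableWithinAt
      exact this.analyticAt (ho.mem_nhds h1)
    have hb : AnalyticAt ℂ (fun s : ℂ => s - 1) β := by fun_prop
    have e : analyticOrderAt (Fc (1 : DirichletCharacter ℂ q)) β =
        analyticOrderAt (DirichletCharacter.LFunction (1 : DirichletCharacter ℂ q)) β := by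
      have e1 : Fc (1 : DirichletCharacter ℂ q) =ᶠ[𝓝 β] (fun s : ℂ => s - 1) *
          DirichletCharacter.LFunction (1 : DirichletCharacter ℂ q) := by
        filter_upwards [isOpen_ne.mem_nhds h1] with s hs
        rw [Fc_one, DirichletCharacter.LFunctionTrivChar₁, Function.update_of_ne hs]
        rfl
      rw [analyticOrderAt_congr e1, analyticOrderAt_mul hb ha, order_lin 1 β h1, zero_add]
    unfold D.mu analyticOrderNatAt
    rw [e]
  · rw [Fc_ne χ hχ]
    rfl

theorem kappa_eq {q : ℕ} [NeZero q] (a : ℕ) {β : ℝ} (h : β < 1) :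
    kappa q a β = kap (q := q) (a : ZMod q) β := by
  unfold kappa kap
  refine sum_congr rfl fun χ _ => ?_
  rw [mu_Fc χ (by exact_mod_cast h.ne)]

/-- **Main theorem.** Let `q ≥ 1` and let `B` be the set of the real zeros in `(1 / 2, 1)` of the
functions `L(s, χ)`, `χ` modulo `q`; it is finite, and the coefficients `κ_β(a)` are real.

(1) For every `ε > 0` there are `A` and `C` such that for all `x ≥ 1` and all real weights `c` on the
reduced classes the window `[x, A x]` contains `y` such that for all `z` in `[y, y + √y]` the weighted sum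
of the `ψ(z; q, a) - (z - ∑_{β ∈ B} κ_β(a) z ^ β / β) / φ(q)` is at most `C (∑ |c a|) z ^ (1 / 2 + ε)`.

(2) If `β ∈ B` and `κ_b(a) = 0` for all larger `b ∈ B` then for every `η > 0` there is `A` such that every
window `[x, A x]` contains `y` with
`|ψ(z; q, a) - z / φ(q) + κ_β(a) z ^ β / (β φ(q))| ≤ η z ^ β` for all `z` in `[y, y + √y]`. -/
theorem result (q : ℕ) [NeZero q] :
    ∃ B : Finset ℝ, (∀ β : ℝ, β ∈ B ↔
        1 / 2 < β ∧ β < 1 ∧ ∃ χ : DirichletCharacter ℂ q, χ.LFunction (β : ℂ) = 0) ∧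
      (∀ a : ℕ, ∀ β ∈ B, (kappa q a β).im = 0) ∧
      (∀ ε : ℝ, 0 < ε → ∃ A C : ℝ, 1 < A ∧ ∀ x : ℝ, 1 ≤ x → ∀ c : ℕ → ℝ, ∃ y : ℝ, x ≤ y ∧ y ≤ A * x ∧
        ∀ z : ℝ, y ≤ z → z ≤ y + √y →
          |∑ a ∈ classes q, c a * (psi z q a -
            (z - ∑ β ∈ B, (kappa q a β).re * z ^ β / β) / q.totient)| ≤
            C * (∑ a ∈ classes q, |c a|) * z ^ (1 / 2 + ε)) ∧
      (∀ a ∈ classes q, ∀ β ∈ B, (∀ b ∈ B, β < b → kappa q a b = 0) → ∀ η : ℝ, 0 < η →
        ∃ A : ℝ, 1 < A ∧ ∀ x : ℝ, 1 ≤ x → ∃ y : ℝ, x ≤ y ∧ y ≤ A * x ∧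
          ∀ z : ℝ, y ≤ z → z ≤ y + √y →
            |psi z q a - z / q.totient + (kappa q a β).re * z ^ β / (β * q.totient)| ≤
              η * z ^ β) := by
  have hcop : ∀ a ∈ classes q, a.Coprime q := fun a ha => by
    unfold classes at ha
    rw [mem_filter] at ha
    exact ha.2
  have hfin : {β : ℝ | 1 / 2 < β ∧ β < 1 ∧ ∃ χ : DirichletCharacter ℂ q,
      χ.LFunction (β : ℂ) = 0}.Finite := by
    have h1 := (LT_Pq q).zeros_finite (Metric.closedBall 0 1) (isCompact_closedBall 0 1)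
    refine (h1.preimage (Complex.ofReal_injective.injOn)).subset fun β hβ => ?_
    obtain ⟨h2, h3, h4⟩ := hβ
    have h5 : (β : ℂ) ≠ 1 := by exact_mod_cast h3.ne
    refine ⟨(Pq_zero h5).2 h4, ?_⟩
    rw [Metric.mem_closedBall, dist_zero_right, Complex.norm_real, Real.norm_eq_abs,
      abs_of_pos (by linarith)]
    exact h3.le
  have hmem : ∀ β : ℝ, β ∈ hfin.toFinset ↔
      1 / 2 < β ∧ β < 1 ∧ ∃ χ : DirichletCharacter ℂ q, χ.LFunction (β : ℂ) = 0 := by
    intro β
    rw [Set.Finite.mem_toFinset]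
    rfl
  have hB : ∀ b ∈ hfin.toFinset, 1 / 2 < b ∧ b < 1 := fun b hb => by
    have := (hmem b).1 hb
    exact ⟨this.1, this.2.1⟩
  have hBc : ∀ x : ℝ, 1 / 2 < x → x < 1 → Pq q (x : ℂ) = 0 → x ∈ hfin.toFinset := by
    intro x h1 h2 h3
    rw [hmem]
    exact ⟨h1, h2, (Pq_zero (by exact_mod_cast h2.ne)).1 h3⟩
  have hk : ∀ a : ℕ, ∀ b ∈ hfin.toFinset, kappa q a b = kap (q := q) (a : ZMod q) b :=
    fun a b hb => kappa_eq a (hB b hb).2
  refine ⟨hfin.toFinset, hmem, fun a β hβ => ?_, fun ε hε => ?_, fun a ha β hβ hmax η hη => ?_⟩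
  · rw [hk a β hβ, ← kap_re]
    simp
  · set θ : ℝ := min (1 / 2 + ε) (3 / 4) with hθ
    have t1 : 1 / 2 < θ := lt_min (by linarith) (by norm_num)
    have t2 : θ < 1 := lt_of_le_of_lt (min_le_right _ _) (by norm_num)
    obtain ⟨A, C, hA, hC, hwin⟩ := window_core hfin.toFinset hB hBc t1 t2 (classes q) hcop
    refine ⟨A, C, hA, fun x hx c => ?_⟩
    obtain ⟨y, hy1, hy2, hy3⟩ := hwin x hx c
    refine ⟨y, hy1, hy2, fun z hz1 hz2 => ?_⟩
    have hz : 1 ≤ z := by linarith
    have e1 : ∀ a : ℕ, ∑ β ∈ hfin.toFinset, (kappa q a β).re * z ^ β / β =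
        ∑ b ∈ hfin.toFinset, (kap (q := q) (a : ZMod q) b).re * z ^ b / b := fun a =>
      sum_congr rfl fun b hb => by rw [hk a b hb]
    simp_rw [e1]
    have hK : 0 ≤ ∑ a ∈ classes q, |c a| := sum_nonneg fun _ _ => abs_nonneg _
    refine (hy3 z hz1 hz2).trans (mul_le_mul_of_nonneg_left ?_ (by positivity))
    exact Real.rpow_le_rpow_of_exponent_le hz (min_le_left _ _)
  · obtain ⟨A, hA, hwin⟩ := bias_core hfin.toFinset hB hBc a (hcop a ha) β hβ
      (fun b hb hlt => by rw [← hk a b hb, hmax b hb hlt, Complex.zero_re]) η hη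
    refine ⟨A, hA, fun x hx => ?_⟩
    obtain ⟨y, hy1, hy2, hy3⟩ := hwin x hx
    refine ⟨y, hy1, hy2, fun z hz1 hz2 => ?_⟩
    rw [hk a β hβ]
    exact hy3 z hz1 hz2

end

end Pool.Agent.Results.MP_9cfc0a_nt.RealZeroTerms
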